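import Mathlib
import Pool.Agent.Q212.NR.Pos

/-!
# Compact spaces whose small closures are Eberlein compact

It is consistent with ZFC that there is a compact space which is not Eberlein (not even Corson)
compact although the closures of all its subsets of size at most continuum are Eberlein (even
uniform Eberlein) compact. Under Axiom R, compact spaces whose small closures are Eberlein compact
are at least Corson compact.
-/

set_option autoImplicit false

namespace Pool.Agent.Results.MP_ba6bfd_gt.SmallEberleinClosures

open Cardinal
open Pool.Agent.Helper332.NRS (Kc)
open Pool.Agent.Q212.NR (NoNewFun NonreflectingForced IsNonreflecting IsCorson IsEberlein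
  TwoSupports AxiomR)

/-- (1) Some forcing notion forces that there is no new function from the ground model set of
functions `ℕ → Bool` to the successor `Kc` of the continuum, and that `Kc` carries a nonreflecting
stationary set of points of cofinality `ω`. (2) If `Kc` carries such a set, then there is a compact
Hausdorff space `X` which is not Eberlein compact (and not even Corson compact), while for every
`A ⊆ X` of size at most continuum the closure of `A` is Eberlein compact, and even embeds in some
`{0,1}^Γ` with all points having at most two coordinates equal to one. (3) Under Axiom R, every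
compact Hausdorff space in which the closures of all subsets of size at most `ℵ₁` are Eberlein
compact is Corson compact. -/
theorem result :
    (∃ (P : Type) (_ : Preorder P), Nonempty P ∧ ∀ p : P,
      p ∈ NoNewFun P ∧ p ∈ NonreflectingForced P) ∧
    ((∃ E : Set Kc, IsNonreflecting E) →
      ∃ (X : Type) (_ : TopologicalSpace X), CompactSpace X ∧ T2Space X ∧
        (∀ A : Set X, #A ≤ 𝔠 → IsEberlein (closure A) ∧ TwoSupports (closure A)) ∧
        ¬ IsEberlein X ∧ ¬ IsCorson X) ∧
    (AxiomR → ∀ (X : Type) [TopologicalSpace X] [CompactSpace X] [T2Space X],
      (∀ A : Set X, #A ≤ ℵ₁ → IsEberlein (closure A)) → IsCorson X) := by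
  refine ⟨Pool.Agent.Q212.NR.exists_forcing, ?_, ?_⟩
  · rintro ⟨E, hE⟩
    obtain ⟨X, i, h1, h2, h3, h4⟩ := Pool.Agent.Q212.NR.exists_space hE.sys
    exact ⟨X, i, h1, h2, fun A hA => ⟨(h3 A hA).isEberlein, h3 A hA⟩,
      fun h => h4 h.isCorson, h4⟩
  · intro hR X _ _ _ h
    refine Pool.Agent.Q212.NR.corson_of_small hR X fun A hA => ?_
    have : CompactSpace (closure A) := isCompact_iff_compactSpace.1 isClosed_closure.isCompact
    exact (h A hA).isCorson

end Pool.Agent.Results.MP_ba6bfd_gt.SmallEberleinClosures
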